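import Pool.Agent.H31.ST.Targets

/-!
# EPOS: `J`-positivity along the energy curve (module for MP_0b97f5_mp)
helper94
-/

open Set Filter Topology Matrix

noncomputable section

namespace H94.ST

open H31.ST

theorem toPos {A : ℝ → Mat} {t d : ℝ} (h : SPos A t d) : Pos A t d := by
  obtain ⟨H, h1, h2, h3, _, h5, h6, h7⟩ := h
  exact ⟨H, h1, h2, h3, h5, h6, h7⟩

theorem Mm_det (lam : ℝ) (a : ℕ → ℕ) (E : ℝ) : ∀ n, (Mm lam a E n).det = 1
  | 0 => by simp [Mm, Matrix.det_fin_two]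
  | 1 => by simp [Mm, Matrix.det_fin_two]
  | (n + 2) => by
      rw [Mm, Matrix.det_mul, Matrix.det_pow, Mm_det lam a E n, Mm_det lam a E (n + 1)]
      simp

theorem spos_pow (hM : T_POSMUL) {A : ℝ → Mat} {t : ℝ} (hdet : (A t).det = 1)
    (hA : SPos A t 0) : ∀ k : ℕ, SPos (fun s => A s ^ (k + 1)) t 0
  | 0 => by simpa using hA
  | (k + 1) => by
      have ih := spos_pow hM hdet hA k
      have h := (hM A (fun s => A s ^ (k + 1)) t 0 0 hdet).2.1 hA (toPos ih)
      simpa [pow_succ'] using h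

theorem pos_zero (lam : ℝ) (a : ℕ → ℕ) (E : ℝ) : Pos (fun E => Mm lam a E 0) E 0 := by
  refine ⟨0, by simp, by simp, by simp, le_refl _, by simp, ?_⟩
  intro i j
  have h : HasDerivAt (fun _ : ℝ => (!![1, -lam; 0, 1] : Mat) i j) 0 E := hasDerivAt_const _ _
  simpa [Mm] using h

theorem spos_one (lam : ℝ) (a : ℕ → ℕ) (E : ℝ) : SPos (fun E => Mm lam a E 1) E 0 := by
  refine ⟨!![0, 0; 0, 1], by simp, by simp, by simp, by simp, le_refl _, ?_, ?_⟩
  · simp [Matrix.det_fin_two]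
  · intro i j
    fin_cases i <;> fin_cases j
    · have h : HasDerivAt (fun s : ℝ => s) 1 E := hasDerivAt_id E
      simpa [Mm, H31.ST.J, Matrix.mul_apply, Fin.sum_univ_two] using h
    · have h : HasDerivAt (fun _ : ℝ => (-1 : ℝ)) 0 E := hasDerivAt_const _ _
      simpa [Mm, H31.ST.J, Matrix.mul_apply, Fin.sum_univ_two] using h
    · have h : HasDerivAt (fun _ : ℝ => (1 : ℝ)) 0 E := hasDerivAt_const _ _
      simpa [Mm, H31.ST.J, Matrix.mul_apply, Fin.sum_univ_two] using h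
    · have h : HasDerivAt (fun _ : ℝ => (0 : ℝ)) 0 E := hasDerivAt_const _ _
      simpa [Mm, H31.ST.J, Matrix.mul_apply, Fin.sum_univ_two] using h

theorem pos_all (hM : T_POSMUL) (lam : ℝ) (a : ℕ → ℕ) (ha : ∀ k, 1 ≤ a k) (E : ℝ) :
    ∀ n, Pos (fun E => Mm lam a E n) E 0 ∧ SPos (fun E => Mm lam a E (n + 1)) E 0
  | 0 => ⟨pos_zero lam a E, spos_one lam a E⟩
  | (n + 1) => by
      obtain ⟨h0, h1⟩ := pos_all hM lam a ha E n
      refine ⟨toPos h1, ?_⟩
      obtain ⟨k, hk⟩ : ∃ k, a n = k + 1 := ⟨a n - 1, by have := ha n; omega⟩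
      have hp := spos_pow hM (A := fun E => Mm lam a E (n + 1)) (Mm_det lam a E (n + 1)) h1 k
      have h := (hM (fun E => Mm lam a E n) (fun s => Mm lam a s (n + 1) ^ (k + 1)) E 0 0
        (Mm_det lam a E n)).2.2 h0 hp
      have e : (fun E => Mm lam a E (n + 1 + 1))
          = fun s => Mm lam a s n * Mm lam a s (n + 1) ^ (k + 1) := by
        funext s
        rw [Mm, hk]
      rw [e]
      simpa using h

/-- EPOS -/
theorem EPOS (hM : T_POSMUL) : T_EPOS := by
  intro lam a ha E n hn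
  obtain ⟨k, rfl⟩ : ∃ k, n = k + 1 := ⟨n - 1, by omega⟩
  exact (pos_all hM lam a ha E k).2

end H94.ST
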